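import Mathlib
import Pool.Agent.H.MP_eff680_pr.helper91.Basic

open MeasureTheory ProbabilityTheory Set Filter
open scoped Topology
open Pool.Agent.H.MP_eff680_pr.helper91

namespace Pool.Agent.Results.MP_eff680_pr.Asymptotics

/-- Small `ν` asymptotics of `m_n(ρ, μ, ν)`, in every dimension, for every `ρ, μ ∈ (0,1)`:
with `a` the number such that `P(|N| ≤ a) = μ` (half the width of the slab of measure `μ`),
`log m_n(ρ, μ, ν) = - log(1/ν) / (1 - ρ²) + (ρ a / (1 - ρ²) + o(1)) √(2 log(1/ν))`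
as `ν → 0`. -/
theorem result (n : ℕ) (hn : 1 ≤ n) (ρ : ℝ) (hρ : 0 < ρ) (hρ1 : ρ < 1) (μ : ℝ) (hμ : 0 < μ)
    (hμ1 : μ < 1) :
    ∃ a : ℝ, 0 < a ∧ (gaussianReal 0 1).real (Icc (-a) a) = μ ∧
      Tendsto (fun ν : ℝ => (Real.log (minProb n ρ μ ν) + Real.log (1 / ν) / (1 - ρ ^ 2))
        / √(2 * Real.log (1 / ν))) (𝓝[>] 0) (𝓝 (ρ * a / (1 - ρ ^ 2))) := by
  obtain ⟨a, ha0, ha⟩ := g1_quantile μ hμ hμ1
  refine ⟨a, ha0, ha, ?_⟩
  refine ((limit_L hn ρ hρ hρ1 μ a hμ hμ1 ha0 ha).comp tendsto_scale).congr' ?_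
  filter_upwards [scale_eq] with ν hν
  simp only [Function.comp_apply]
  rw [hν.1, hν.2]

end Pool.Agent.Results.MP_eff680_pr.Asymptotics
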