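import Pool.Agent.H.MP_eff680_pr.D1.Ends

open MeasureTheory ProbabilityTheory Set Filter
open scoped Topology
open Pool.Agent.H.MP_eff680_pr.helper91

namespace Pool.Agent.Results.MP_eff680_pr.BallsIffDimensionOne

/-- (1) In dimension one, for every correlation `ρ ∈ [0,1]` and all `μ, ν ∈ (0,1)`, the minimum of
`Pr[x ∈ A, y ∈ B]` is attained by a centred interval of measure `max μ ν` and the complement of a
centred interval, of measure `min μ ν` (and for `ρ = 0`, `ρ = 1` by the corresponding balls in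
every dimension).
(2) In every dimension `n ≥ 2`, for every `ρ ∈ (0,1)` and every `μ ∈ (0,1)`, for all small `ν` neither
(centred ball, complement of a centred ball) nor (complement of a centred ball, centred ball) of
measures `μ`, `ν` minimises `Pr[x ∈ A, y ∈ B]`; they miss the infimum by factors tending to
infinity as `ν → 0`. -/
theorem result :
    (∀ (n : ℕ) (ρ : ℝ), 0 ≤ ρ → ρ ≤ 1 → (n = 1 ∨ ρ = 0 ∨ ρ = 1) →
      ∀ μ ν : ℝ, 0 < μ → μ < 1 → 0 < ν → ν < 1 → ∀ r R : ℝ,
        (gaussian n).real (Metric.closedBall 0 r) = max μ ν →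
        (gaussian n).real (Metric.closedBall 0 R)ᶜ = min μ ν →
        minProb n ρ μ ν
            = pairProb (n := n) ρ (Metric.closedBall 0 r) (Metric.closedBall 0 R)ᶜ ∧
          minProb n ρ μ ν
            = pairProb (n := n) ρ (Metric.closedBall 0 R)ᶜ (Metric.closedBall 0 r)) ∧
    (∀ (n : ℕ) (ρ μ K : ℝ), 2 ≤ n → 0 < ρ → ρ < 1 → 0 < μ → μ < 1 →
      (∀ r : ℝ, (gaussian n).real (Metric.closedBall 0 r) = μ →
        ∀ᶠ ν in 𝓝[>] (0 : ℝ), ∀ R : ℝ, (gaussian n).real (Metric.closedBall 0 R)ᶜ = ν →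
          K * minProb n ρ μ ν
            < pairProb (n := n) ρ (Metric.closedBall 0 r) (Metric.closedBall 0 R)ᶜ) ∧
      (∀ r : ℝ, (gaussian n).real (Metric.closedBall 0 r)ᶜ = μ →
        ∀ᶠ ν in 𝓝[>] (0 : ℝ), ∀ R : ℝ, (gaussian n).real (Metric.closedBall 0 R) = ν →
          K * minProb n ρ μ ν
            < pairProb (n := n) ρ (Metric.closedBall 0 r)ᶜ (Metric.closedBall 0 R))) := by
  constructor
  · intro n ρ hρ hρ1 h μ ν hμ hμ1 hν hν1 r R hr hR
    exact Pool.Agent.H.MP_eff680_pr.D1.value ρ hρ hρ1 h ⟨hμ, hμ1⟩ ⟨hν, hν1⟩ hr hR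
  · intro n ρ μ K hn hρ hρ1 hμ hμ1
    obtain ⟨a, ha0, ha⟩ := g1_quantile μ hμ hμ1
    constructor
    · intro r hr
      have h := tendsto_scale.eventually (ball_bad_L hn ρ hρ hρ1 μ a ha0 ha r hr K)
      filter_upwards [h, scale_eq] with ν h1 h2 R hR
      have := h1 R (by rw [h2.1]; exact hR)
      rwa [h2.1] at this
    · intro r hr
      have hr0 : 0 ≤ r := by
        by_contra hneg
        rw [Metric.closedBall_eq_empty.2 (not_le.1 hneg), compl_empty, probReal_univ] at hr
        linarith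
      have h := tendsto_scale.eventually (coball_bad_L (n := n) (by omega) ρ hρ hρ1 μ a ha r hr0 K)
      filter_upwards [h, scale_eq] with ν h1 h2 R hR
      have := h1 R (by rw [h2.1]; exact hR)
      rwa [h2.1] at this

end Pool.Agent.Results.MP_eff680_pr.BallsIffDimensionOne
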